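import Mathlib

/-!
# A gonality-tight graph of gonality 5 and genus 8

Q1 asks whether the genus of every gonality-tight graph `G` (that is, `gon_2 = gon_1 + 1`) of
gonality `k` is `k(k-1)/2`, and Q2 whether its gonality sequence is the one of a smooth plane
curve of degree `k + 1`.  Both fail for an explicit multigraph with `8` vertices and `15` edges:
it has `gon_1 = 5`, `gon_2 = 6`, genus `8` and `gon_3 ≤ 8`.
-/

set_option autoImplicit false

namespace Pool.Agent.Results.MP_d208ff_co.GonalityTight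

open Finset

/-- A finite connected multigraph without loops, on the nonempty vertex set `Fin n`;
`mult u v` is the number of edges between `u` and `v`. -/
structure MGraph (n : ℕ) where
  mult : Fin n → Fin n → ℕ
  symm : ∀ u v, mult u v = mult v u
  loopless : ∀ v, mult v v = 0
  nonempty : 0 < n
  connected : ∀ u v, Relation.ReflTransGen (fun a b => 0 < mult a b) u v

namespace MGraph

variable {n : ℕ} (G : MGraph n)

/-- The number of edges. -/
def numEdges : ℕ := ∑ u, ∑ v ∈ univ.filter (u < ·), G.mult u v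

/-- The genus `|E| - |V| + 1`. -/
def genus : ℤ := (G.numEdges : ℤ) - n + 1

/-- The Laplacian. -/
def lap (f : Fin n → ℤ) (v : Fin n) : ℤ := ∑ u, (G.mult v u : ℤ) * (f v - f u)

/-- Linear equivalence of divisors. -/
def LinEquiv (D D' : Fin n → ℤ) : Prop := ∃ f : Fin n → ℤ, D - D' = G.lap f

/-- The Baker-Norine rank of `D` is at least `r`: for every effective divisor `E` of degree `r`,
`D - E` is linearly equivalent to an effective divisor. -/
def RankAtLeast (D : Fin n → ℤ) (r : ℕ) : Prop :=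
  ∀ E : Fin n → ℤ, 0 ≤ E → ∑ v, E v = r → ∃ D' : Fin n → ℤ, 0 ≤ D' ∧ G.LinEquiv (D - E) D'

/-- The `r`-th gonality: the least degree of a divisor of rank at least `r` (for `r ≥ 1` such a
divisor has positive degree). -/
noncomputable def gon (r : ℕ) : ℕ :=
  sInf {d : ℕ | ∃ D : Fin n → ℤ, ∑ v, D v = d ∧ G.RankAtLeast D r}

/-- Gonality-tight graphs. -/
def Tight : Prop := G.gon 2 = G.gon 1 + 1

end MGraph

/-- The conclusion of Q1 for `G`: the genus is `k(k-1)/2`, where `k` is the gonality. -/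
def MGraph.GenusFormula {n : ℕ} (G : MGraph n) : Prop :=
  G.genus = ((G.gon 1).choose 2 : ℕ)

/-- The conclusion of Q2 for `G`: the formula for the gonality sequence. -/
def MGraph.SequenceFormula {n : ℕ} (G : MGraph n) : Prop :=
  (∀ r : ℕ, 1 ≤ r → (G.gon 1).choose 2 ≤ r → G.gon r = (G.gon 1).choose 2 + r) ∧
  (∀ r l h : ℕ, 1 ≤ r → r < (G.gon 1).choose 2 → 1 ≤ l → l + 2 ≤ G.gon 1 → h ≤ l →
    2 * (r + h) = l * (l + 3) → (G.gon r : ℤ) = l * (G.gon 1 + 1) - h)

/-- The multiplicities of the counterexample. -/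
def M : Matrix (Fin 8) (Fin 8) ℕ :=
  !![0, 1, 1, 0, 0, 0, 0, 3;
     1, 0, 0, 2, 0, 0, 1, 0;
     1, 0, 0, 0, 1, 0, 1, 0;
     0, 2, 0, 0, 0, 1, 1, 0;
     0, 0, 1, 0, 0, 2, 0, 1;
     0, 0, 0, 1, 2, 0, 0, 0;
     0, 1, 1, 1, 0, 0, 0, 0;
     3, 0, 0, 0, 1, 0, 0, 0]

theorem M_conn0 (v : Fin 8) : Relation.ReflTransGen (fun a b => 0 < M a b) 0 v := by
  have h0 : Relation.ReflTransGen (fun a b => 0 < M a b) 0 0 := Relation.ReflTransGen.refl
  have h1 : Relation.ReflTransGen (fun a b => 0 < M a b) 0 1 := h0.tail (by decide)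
  have h2 : Relation.ReflTransGen (fun a b => 0 < M a b) 0 2 := h0.tail (by decide)
  have h7 : Relation.ReflTransGen (fun a b => 0 < M a b) 0 7 := h0.tail (by decide)
  have h3 : Relation.ReflTransGen (fun a b => 0 < M a b) 0 3 := h1.tail (by decide)
  have h6 : Relation.ReflTransGen (fun a b => 0 < M a b) 0 6 := h1.tail (by decide)
  have h4 : Relation.ReflTransGen (fun a b => 0 < M a b) 0 4 := h2.tail (by decide)
  have h5 : Relation.ReflTransGen (fun a b => 0 < M a b) 0 5 := h3.tail (by decide)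
  fin_cases v
  · exact h0
  · exact h1
  · exact h2
  · exact h3
  · exact h4
  · exact h5
  · exact h6
  · exact h7

theorem M_symm : ∀ u v, M u v = M v u := by decide

/-- The counterexample. -/
def G : MGraph 8 where
  mult := M
  symm := M_symm
  loopless := by decide
  nonempty := by norm_num
  connected := by
    intro u v
    haveI hs : Std.Symm (fun a b => 0 < M a b) := ⟨by
      intro a b h
      rw [M_symm]
      exact h⟩
    exact (Relation.ReflTransGen.symmetric.symm _ _ (M_conn0 u)).trans (M_conn0 v)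

theorem genus_G : G.genus = 8 := by
  have : G.numEdges = 15 := by decide +kernel
  simp [MGraph.genus, this]

/-! ### General facts -/

theorem sum_lap {n : ℕ} (G : MGraph n) (f : Fin n → ℤ) : ∑ v, G.lap f v = 0 := by
  have h1 : ∑ v, G.lap f v = ∑ v, ∑ u, (G.mult v u : ℤ) * f v - ∑ v, ∑ u, (G.mult v u : ℤ) * f u := by
    rw [← sum_sub_distrib]
    refine sum_congr rfl fun v _ => ?_
    rw [MGraph.lap, ← sum_sub_distrib]
    exact sum_congr rfl fun u _ => by ring
  rw [h1, sub_eq_zero, sum_comm]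
  refine sum_congr rfl fun v _ => sum_congr rfl fun u _ => ?_
  rw [G.symm]

theorem lap_add {n : ℕ} (G : MGraph n) (f g : Fin n → ℤ) : G.lap (f + g) = G.lap f + G.lap g := by
  ext v
  simp only [MGraph.lap, Pi.add_apply, ← sum_add_distrib]
  exact sum_congr rfl fun u _ => by ring

theorem lap_sub {n : ℕ} (G : MGraph n) (f g : Fin n → ℤ) : G.lap (f - g) = G.lap f - G.lap g := by
  ext v
  simp only [MGraph.lap, Pi.sub_apply, ← sum_sub_distrib]
  exact sum_congr rfl fun u _ => by ring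

/-- The obstruction: if `D - lap f` is, at every vertex, smaller than the number of edges to the
earlier vertices, then `D` is not equivalent to an effective divisor. -/
theorem not_effective {n : ℕ} (G : MGraph n) (D f : Fin n → ℤ) (o : Fin n → ℕ)
    (h : ∀ x, D x - G.lap f x < ∑ y, if o y < o x then (G.mult x y : ℤ) else 0)
    (D' : Fin n → ℤ) (hD' : 0 ≤ D') : ¬ G.LinEquiv D D' := by
  rintro ⟨g, hg⟩
  obtain ⟨x0⟩ : Nonempty (Fin n) := ⟨⟨0, G.nonempty⟩⟩
  -- minimizers of `u = f - g`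
  set u : Fin n → ℤ := f - g with hu
  obtain ⟨m, -, hm⟩ := exists_min_image (univ : Finset (Fin n)) u ⟨x0, mem_univ _⟩
  obtain ⟨x, hx, hxm⟩ := exists_min_image (univ.filter fun x => u x = u m) o ⟨m, by simp⟩
  have hxu : u x = u m := (mem_filter.1 hx).2
  have hlap : G.lap u x ≤ - ∑ y, if o y < o x then (G.mult x y : ℤ) else 0 := by
    rw [MGraph.lap, ← sum_neg_distrib]
    refine sum_le_sum fun y _ => ?_
    have h0 : (0 : ℤ) ≤ G.mult x y := Int.natCast_nonneg _
    split_ifs with hy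
    · have h1 : u x < u y := by
        rcases lt_or_eq_of_le (hm y (mem_univ y)) with h2 | h2
        · rw [hxu]; exact h2
        · exact absurd (hxm y (by simp [h2])) (not_le.2 hy)
      nlinarith
    · have h1 : u x ≤ u y := by rw [hxu]; exact hm y (mem_univ y)
      nlinarith
  have h1 := h x
  have h2 : D x - D' x = G.lap g x := congrFun hg x
  have h3 : G.lap u x = G.lap f x - G.lap g x := by rw [hu, lap_sub]; rfl
  have h4 : 0 ≤ D' x := hD' x
  linarith

theorem rank_sub {n : ℕ} (G : MGraph n) {D E : Fin n → ℤ} {r s : ℕ} (hE : 0 ≤ E)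
    (hs : ∑ v, E v = s) (h : G.RankAtLeast D (r + s)) : G.RankAtLeast (D - E) r := by
  intro F hF hr
  obtain ⟨D', hD', h1⟩ := h (F + E) (add_nonneg hF hE) (by
    simp [sum_add_distrib, hr, hs])
  refine ⟨D', hD', ?_⟩
  have : D - E - F = D - (F + E) := by abel
  rw [this]
  exact h1

theorem rank_add {n : ℕ} (G : MGraph n) {D E : Fin n → ℤ} {r : ℕ} (hE : 0 ≤ E)
    (h : G.RankAtLeast D r) : G.RankAtLeast (D + E) r := by
  intro F hF hr
  obtain ⟨D', hD', g, hg⟩ := h F hF hr
  refine ⟨D' + E, add_nonneg hD' hE, g, ?_⟩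
  rw [← hg]
  abel

/-- An effective divisor of positive degree contains a vertex. -/
theorem exists_sub {n : ℕ} {E : Fin n → ℤ} {d : ℕ} (hE : 0 ≤ E) (hd : ∑ v, E v = (d + 1 : ℕ)) :
    ∃ (a : Fin n) (E' : Fin n → ℤ), 0 ≤ E' ∧ ∑ v, E' v = d ∧ E = Pi.single a 1 + E' := by
  have : ∃ a, 0 < E a := by
    by_contra hcon
    push Not at hcon
    have : ∑ v, E v ≤ 0 := sum_nonpos fun v _ => hcon v
    rw [hd] at this
    push_cast at this
    linarith [Int.natCast_nonneg d]
  obtain ⟨a, ha⟩ := this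
  refine ⟨a, E - Pi.single a 1, ?_, ?_, by abel⟩
  · intro v
    by_cases hv : v = a
    · subst hv
      simp
      omega
    · simp [hv]
      exact hE v
  · simp [sum_sub_distrib, hd]

/-! ### The certificates -/

/-- The `i`-th hexadecimal digit. -/
def dig (c i : ℕ) : ℕ := (c >>> (4 * i)) &&& 15

/-- The multiplicities, coded. -/
def m (x y : ℕ) : ℕ := (1344811542222853133069876982240624660 >>> (2 * (8 * x + y))) &&& 3

theorem M_eq : ∀ x y : Fin 8, M x y = m x y := by decide +kernel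

/-- Sum over the eight vertices. -/
def s8 (f : ℕ → ℕ) : ℕ := f 0 + f 1 + f 2 + f 3 + f 4 + f 5 + f 6 + f 7

theorem s8_eq (f : ℕ → ℕ) : (s8 f : ℤ) = ∑ y : Fin 8, (f y : ℤ) := by
  simp [s8, Fin.sum_univ_eight]

/-- `D - E - lap f` is nonnegative at `x`, where `f` is given by the digits of `c`. -/
def okE (D : ℕ → ℕ) (E : ℕ → ℕ) (c x : ℕ) : Bool :=
  Nat.ble (E x + s8 (fun y => m x y) * dig c x) (D x + s8 fun y => m x y * dig c y)

def okEall (D : ℕ → ℕ) (E : ℕ → ℕ) (c : ℕ) : Bool :=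
  okE D E c 0 && okE D E c 1 && okE D E c 2 && okE D E c 3 &&
    okE D E c 4 && okE D E c 5 && okE D E c 6 && okE D E c 7

/-- `D - v - lap f` is smaller than the number of edges to the earlier vertices at `x`, where
`v`, `f` and the order are given by the digits of `c`. -/
def okN (D : ℕ → ℕ) (c x : ℕ) : Bool :=
  Nat.blt (D x + s8 fun y => m x y * dig c (y + 1))
    (s8 (fun y => bif Nat.blt (dig c (y + 9)) (dig c (x + 9)) then m x y else 0) +
      (bif Nat.beq x (dig c 0) then 1 else 0) + s8 (fun y => m x y) * dig c (x + 1))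

def okNall (D : ℕ → ℕ) (c : ℕ) : Bool :=
  okN D c 0 && okN D c 1 && okN D c 2 && okN D c 3 &&
    okN D c 4 && okN D c 5 && okN D c 6 && okN D c 7

def certN : List ℕ :=
  [0x4763521000000007, 0x53240716000000003, 0x51762034000000002, 0x25107463000000004,
   0x73241506000000001, 0x37215064000000002, 0x25017463100000015, 0x73241506001100001,
   0x27106543010010104, 0x73214056000000002, 0x52140736100000013, 0x52760413100000013,
   0x26105473000000004, 0x25017463000000005, 0x26105743000000004, 0x47231605000000001,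
   0x63251407000000001, 0x73260514100001013, 0x75231406000000001, 0x61352047000000002,
   0x63251407001000001, 0x73240516000000003, 0x73102546000000004, 0x73260514100000013,
   0x72650413100101013]

def cert2 : List ℕ :=
  [0x10110001, 0x10000001, 0x20110102, 0x20221112, 0x0, 0x31120213, 0x20010102, 0x1111111]

def cert3 : List ℕ :=
  [0x10110001, 0x20220102, 0x20221112, 0x10220101, 0x0, 0x20110102, 0x31120213, 0x110000,
   0x10000001, 0x21331202, 0x1111111, 0x30331213, 0x20221012, 0x20010102]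

/-- Indicator of a vertex. -/
def ind (a x : ℕ) : ℕ := bif Nat.beq x a then 1 else 0

theorem check1 : ∀ a b c : Fin 8, a ≤ b → b ≤ c →
    (certN.any fun k => Nat.blt (dig k 0) 8 &&
      okNall (fun x => ind 0 x + (ind a x + (ind b x + ind c x))) k) = true := by
  decide +kernel

def D2 : ℕ → ℕ := dig 0x10110003
def D3 : ℕ → ℕ := dig 0x10220003

theorem check2 : ∀ a b : Fin 8, a ≤ b →
    (cert2.any fun k => okEall D2 (fun x => ind a x + ind b x) k) = true := by
  decide +kernel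

theorem check3 : ∀ a b c : Fin 8, a ≤ b → b ≤ c →
    (cert3.any fun k => okEall D3 (fun x => ind a x + (ind b x + ind c x)) k) = true := by
  decide +kernel

theorem okEall_spec {D E : ℕ → ℕ} {k : ℕ} (h : okEall D E k = true) (x : Fin 8) :
    okE D E k x = true := by
  simp only [okEall, Bool.and_eq_true] at h
  obtain ⟨⟨⟨⟨⟨⟨⟨h0, h1⟩, h2⟩, h3⟩, h4⟩, h5⟩, h6⟩, h7⟩ := h
  fin_cases x <;> assumption

theorem okNall_spec {D : ℕ → ℕ} {k : ℕ} (h : okNall D k = true) (x : Fin 8) :
    okN D k x = true := by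
  simp only [okNall, Bool.and_eq_true] at h
  obtain ⟨⟨⟨⟨⟨⟨⟨h0, h1⟩, h2⟩, h3⟩, h4⟩, h5⟩, h6⟩, h7⟩ := h
  fin_cases x <;> assumption

theorem lap_G (f : Fin 8 → ℤ) (x : Fin 8) :
    G.lap f x = (∑ y : Fin 8, (m x y : ℤ)) * f x - ∑ y : Fin 8, (m x y : ℤ) * f y := by
  rw [MGraph.lap, sum_mul, ← sum_sub_distrib]
  refine sum_congr rfl fun y _ => ?_
  have : (G.mult x y : ℤ) = m x y := by
    rw [← M_eq]
    rfl
  rw [this]
  ring

theorem effective_of_okE {D E : ℕ → ℕ} {k : ℕ} (h : okEall D E k = true) :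
    ∃ D' : Fin 8 → ℤ, 0 ≤ D' ∧
      G.LinEquiv ((fun y : Fin 8 => (D y : ℤ)) - fun y : Fin 8 => (E y : ℤ)) D' := by
  refine ⟨((fun y : Fin 8 => (D y : ℤ)) - fun y : Fin 8 => (E y : ℤ)) -
    G.lap (fun y => (dig k y : ℤ)), ?_, fun y => (dig k y : ℤ), by abel⟩
  intro x
  have h1 := Nat.le_of_ble_eq_true (okEall_spec h x)
  have h2 : (((E x + s8 (fun y => m x y) * dig k x : ℕ)) : ℤ) ≤
      ((D x + s8 fun y => m x y * dig k y : ℕ) : ℤ) := by exact_mod_cast h1
  push_cast at h2
  rw [s8_eq, s8_eq] at h2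
  push_cast at h2
  simp only [Pi.zero_apply, Pi.sub_apply, lap_G]
  linarith

theorem not_effective_of_okN {D : ℕ → ℕ} {k : ℕ} (hv : dig k 0 < 8) (h : okNall D k = true)
    (D' : Fin 8 → ℤ) (hD' : 0 ≤ D') :
    ¬ G.LinEquiv ((fun y : Fin 8 => (D y : ℤ)) - Pi.single ⟨dig k 0, hv⟩ 1) D' := by
  refine not_effective G _ (fun y => (dig k (y + 1) : ℤ)) (fun y => dig k (y + 9)) ?_ D' hD'
  intro x
  have h1 : D x + (s8 fun y => m x y * dig k (y + 1)) <
    (s8 (fun y => bif Nat.blt (dig k (y + 9)) (dig k (x + 9)) then m x y else 0) +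
      (bif Nat.beq x (dig k 0) then 1 else 0) + s8 (fun y => m x y) * dig k (x + 1)) :=
    Nat.le_of_ble_eq_true (okNall_spec h x)
  have h2 : ((D x + (s8 fun y => m x y * dig k (y + 1)) : ℕ) : ℤ) <
    ((s8 (fun y => bif Nat.blt (dig k (y + 9)) (dig k (x + 9)) then m x y else 0) +
      (bif Nat.beq x (dig k 0) then 1 else 0) + s8 (fun y => m x y) * dig k (x + 1) : ℕ) : ℤ) := by
    exact_mod_cast h1
  push_cast at h2
  rw [s8_eq, s8_eq, s8_eq] at h2
  push_cast at h2
  have h3 : (Pi.single (⟨dig k 0, hv⟩ : Fin 8) (1 : ℤ) : Fin 8 → ℤ) x =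
      ((bif Nat.beq x (dig k 0) then 1 else 0 : ℕ) : ℤ) := by
    by_cases hx : (x : ℕ) = dig k 0
    · have hx' : x = ⟨dig k 0, hv⟩ := Fin.ext hx
      rw [hx', Pi.single_eq_same]
      simp
    · have hx' : x ≠ ⟨dig k 0, hv⟩ := fun h => hx (congrArg Fin.val h)
      rw [Pi.single_eq_of_ne hx']
      have : Nat.beq x (dig k 0) = false := by
        rw [← Bool.not_eq_true]
        intro h
        exact hx (Nat.eq_of_beq_eq_true h)
      rw [this]
      simp
  have h4 : (∑ y : Fin 8, if dig k (y + 9) < dig k (x + 9) then (G.mult x y : ℤ) else 0) =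
      ∑ y : Fin 8, ((bif Nat.blt (dig k (y + 9)) (dig k (x + 9)) then m x y else 0 : ℕ) : ℤ) := by
    refine sum_congr rfl fun y _ => ?_
    have : (G.mult x y : ℤ) = m x y := by
      rw [← M_eq]
      rfl
    rw [this]
    by_cases hy : dig k (y + 9) < dig k (x + 9)
    · have : Nat.blt (dig k (y + 9)) (dig k (x + 9)) = true := Nat.ble_eq_true_of_le hy
      rw [this, if_pos hy]
      simp
    · have : Nat.blt (dig k (y + 9)) (dig k (x + 9)) = false := by
        rw [← Bool.not_eq_true]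
        intro h
        exact hy (Nat.le_of_ble_eq_true h)
      rw [this, if_neg hy]
      simp
  rw [h4, Pi.sub_apply, h3, lap_G]
  push_cast
  linarith

/-! ### Sorting -/

theorem sort2 {P : Fin 8 → Fin 8 → Prop} (hs : ∀ a b, P a b → P b a)
    (h : ∀ a b, a ≤ b → P a b) (a b : Fin 8) : P a b := by
  rcases le_total a b with h1 | h1
  · exact h a b h1
  · exact hs _ _ (h b a h1)

theorem sort3 {P : Fin 8 → Fin 8 → Fin 8 → Prop} (hs1 : ∀ a b c, P a b c → P b a c)
    (hs2 : ∀ a b c, P a b c → P a c b)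
    (h : ∀ a b c, a ≤ b → b ≤ c → P a b c) (a b c : Fin 8) : P a b c := by
  rcases le_total a b with h1 | h1 <;> rcases le_total b c with h2 | h2 <;>
    rcases le_total a c with h3 | h3
  · exact h a b c h1 h2
  · exact h a b c h1 h2
  · exact hs2 _ _ _ (h a c b h3 h2)
  · exact hs2 _ _ _ (hs1 _ _ _ (h c a b h3 h1))
  · exact hs1 _ _ _ (h b a c h1 h3)
  · exact hs1 _ _ _ (hs2 _ _ _ (h b c a h2 h3))
  · exact hs1 _ _ _ (hs2 _ _ _ (hs1 _ _ _ (h c b a h2 h1)))
  · exact hs1 _ _ _ (hs2 _ _ _ (hs1 _ _ _ (h c b a h2 h1)))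

theorem single_eq (a : Fin 8) : (Pi.single a 1 : Fin 8 → ℤ) = fun y : Fin 8 => (ind a y : ℤ) := by
  funext y
  by_cases h : y = a
  · subst h
    simp [ind]
  · have : Nat.beq y a = false := by
      rw [← Bool.not_eq_true]
      intro h'
      exact h (Fin.ext (Nat.eq_of_beq_eq_true h'))
    simp [ind, this, h]

/-! ### The three gonalities -/

/-- No divisor of degree at most `4` has rank at least `1`. -/
theorem no_rank1 (D : Fin 8 → ℤ) (d : ℕ) (hd : ∑ v, D v = d) (h4 : d ≤ 4)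
    (hr : G.RankAtLeast D 1) : False := by
  -- raise the degree to four
  obtain ⟨D1, hD1, hr1⟩ : ∃ D1 : Fin 8 → ℤ, ∑ v, D1 v = 4 ∧ G.RankAtLeast D1 1 := by
    refine ⟨D + Pi.single 0 ((4 - d : ℕ) : ℤ), ?_, rank_add G ?_ hr⟩
    · simp only [Pi.add_apply, sum_add_distrib, hd, sum_pi_single', mem_univ, if_true]
      push_cast [h4]
      ring
    · intro v
      by_cases hv : v = 0
      · subst hv
        simp
      · simp [hv]
  have hs : ∀ v : Fin 8, ∃ D' : Fin 8 → ℤ, 0 ≤ D' ∧ G.LinEquiv (D1 - Pi.single v 1) D' := by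
    intro v
    apply hr1
    · intro y
      by_cases hy : y = v
      · subst hy
        simp
      · simp [hy]
    · simp
  obtain ⟨D', hD', g, hg⟩ := hs 0
  have hdeg : ∑ v, D' v = (2 + 1 : ℕ) := by
    have h1 := sum_lap G g
    rw [← hg] at h1
    simp only [Pi.sub_apply, sum_sub_distrib, hD1] at h1
    simp at h1
    push_cast
    linarith
  obtain ⟨a, E1, hE1, hd1, rfl⟩ := exists_sub hD' hdeg
  obtain ⟨b, E2, hE2, hd2, rfl⟩ := exists_sub (d := 1) hE1 hd1
  obtain ⟨c, E3, hE3, hd3, rfl⟩ := exists_sub (d := 0) hE2 hd2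
  have hE3' : E3 = 0 := by
    funext v
    have := (sum_eq_zero_iff_of_nonneg fun v _ => hE3 v).1 (by simpa using hd3)
    exact this v (mem_univ v)
  subst hE3'
  rw [add_zero] at hg
  -- the certificate
  have key : ∀ a b c : Fin 8, ∃ v : Fin 8, ∀ D'' : Fin 8 → ℤ, 0 ≤ D'' →
      ¬ G.LinEquiv (Pi.single 0 1 + (Pi.single a 1 + (Pi.single b 1 + Pi.single c 1)) -
        Pi.single v 1) D'' := by
    refine sort3 ?_ ?_ ?_
    · rintro a b c ⟨v, hv⟩
      refine ⟨v, fun D'' h => ?_⟩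
      have h1 := hv D'' h
      rwa [show (Pi.single a 1 + (Pi.single b 1 + Pi.single c 1) : Fin 8 → ℤ) =
        (Pi.single b 1 + (Pi.single a 1 + Pi.single c 1)) by abel] at h1
    · rintro a b c ⟨v, hv⟩
      refine ⟨v, fun D'' h => ?_⟩
      have h1 := hv D'' h
      rwa [show (Pi.single a 1 + (Pi.single b 1 + Pi.single c 1) : Fin 8 → ℤ) =
        (Pi.single a 1 + (Pi.single c 1 + Pi.single b 1)) by abel] at h1
    · intro a b c hab hbc
      obtain ⟨k, -, hk⟩ := List.any_eq_true.1 (check1 a b c hab hbc)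
      rw [Bool.and_eq_true] at hk
      have hv : dig k 0 < 8 := Nat.le_of_ble_eq_true hk.1
      refine ⟨⟨dig k 0, hv⟩, fun D'' h => ?_⟩
      have h1 := not_effective_of_okN hv hk.2 D'' h
      have h2 : (Pi.single 0 1 + (Pi.single a 1 + (Pi.single b 1 + Pi.single c 1)) : Fin 8 → ℤ) =
          fun y : Fin 8 => ((ind 0 y + (ind a y + (ind b y + ind c y)) : ℕ) : ℤ) := by
        rw [single_eq, single_eq, single_eq, single_eq]
        funext y
        simp only [Pi.add_apply]
        push_cast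
        rfl
      rw [h2]
      exact h1
  obtain ⟨v, hv⟩ := key a b c
  obtain ⟨D'', hD'', g', hg'⟩ := hs v
  refine hv D'' hD'' ⟨g' - g, ?_⟩
  rw [lap_sub, ← hg, ← hg']
  abel

theorem no_rank2 (D : Fin 8 → ℤ) (d : ℕ) (hd : ∑ v, D v = d) (h5 : d ≤ 5)
    (hr : G.RankAtLeast D 2) : False := by
  have h0 : (0 : Fin 8 → ℤ) ≤ Pi.single 0 1 := by
    intro v
    by_cases hv : v = 0
    · subst hv
      simp
    · simp [hv]
  rcases Nat.eq_zero_or_pos d with h | h
  · refine no_rank1 (D + Pi.single 0 1) 1 (by simp [sum_add_distrib, hd, h]) (by norm_num) ?_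
    have h1 : G.RankAtLeast D 1 := by
      have h2 := rank_sub G (r := 1) (s := 1) h0 (by simp) hr
      have h3 := rank_add G h0 h2
      rwa [sub_add_cancel] at h3
    exact rank_add G h0 h1
  · refine no_rank1 (D - Pi.single 0 1) (d - 1) ?_ (by omega) (rank_sub G (r := 1) (s := 1) h0 (by simp) hr)
    simp only [Pi.sub_apply, sum_sub_distrib, hd]
    simp
    omega

theorem rank2 : G.RankAtLeast (fun y : Fin 8 => (D2 y : ℤ)) 2 := by
  intro E hE hd
  obtain ⟨a, E1, hE1, hd1, rfl⟩ := exists_sub (d := 1) hE hd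
  obtain ⟨b, E2, hE2, hd2, rfl⟩ := exists_sub (d := 0) hE1 hd1
  have hE2' : E2 = 0 := by
    funext v
    have := (sum_eq_zero_iff_of_nonneg fun v _ => hE2 v).1 (by simpa using hd2)
    exact this v (mem_univ v)
  subst hE2'
  rw [add_zero]
  refine sort2 (P := fun a b => ∃ D', 0 ≤ D' ∧
    G.LinEquiv ((fun y : Fin 8 => (D2 y : ℤ)) - (Pi.single a 1 + Pi.single b 1)) D') ?_ ?_ a b
  · intro a b h
    rwa [add_comm (Pi.single b 1 : Fin 8 → ℤ)]
  · intro a b hab
    obtain ⟨k, -, hk⟩ := List.any_eq_true.1 (check2 a b hab)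
    have h1 := effective_of_okE hk
    have h2 : (Pi.single a 1 + Pi.single b 1 : Fin 8 → ℤ) =
        fun y : Fin 8 => ((ind a y + ind b y : ℕ) : ℤ) := by
      rw [single_eq, single_eq]
      funext y
      simp only [Pi.add_apply]
      push_cast
      rfl
    rw [h2]
    exact h1

theorem rank3 : G.RankAtLeast (fun y : Fin 8 => (D3 y : ℤ)) 3 := by
  intro E hE hd
  obtain ⟨a, E1, hE1, hd1, rfl⟩ := exists_sub (d := 2) hE hd
  obtain ⟨b, E2, hE2, hd2, rfl⟩ := exists_sub (d := 1) hE1 hd1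
  obtain ⟨c, E3, hE3, hd3, rfl⟩ := exists_sub (d := 0) hE2 hd2
  have hE3' : E3 = 0 := by
    funext v
    have := (sum_eq_zero_iff_of_nonneg fun v _ => hE3 v).1 (by simpa using hd3)
    exact this v (mem_univ v)
  subst hE3'
  rw [add_zero]
  refine sort3 (P := fun a b c => ∃ D', 0 ≤ D' ∧
    G.LinEquiv ((fun y : Fin 8 => (D3 y : ℤ)) -
      (Pi.single a 1 + (Pi.single b 1 + Pi.single c 1))) D') ?_ ?_ ?_ a b c
  · intro a b c h
    rwa [show (Pi.single b 1 + (Pi.single a 1 + Pi.single c 1) : Fin 8 → ℤ) =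
        (Pi.single a 1 + (Pi.single b 1 + Pi.single c 1)) by abel]
  · intro a b c h
    rwa [show (Pi.single a 1 + (Pi.single c 1 + Pi.single b 1) : Fin 8 → ℤ) =
        (Pi.single a 1 + (Pi.single b 1 + Pi.single c 1)) by abel]
  · intro a b c hab hbc
    obtain ⟨k, -, hk⟩ := List.any_eq_true.1 (check3 a b c hab hbc)
    have h1 := effective_of_okE hk
    have h2 : (Pi.single a 1 + (Pi.single b 1 + Pi.single c 1) : Fin 8 → ℤ) =
        fun y : Fin 8 => ((ind a y + (ind b y + ind c y) : ℕ) : ℤ) := by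
      rw [single_eq, single_eq, single_eq]
      funext y
      simp only [Pi.add_apply]
      push_cast
      rfl
    rw [h2]
    exact h1

theorem sum_D2 : ∑ y : Fin 8, (D2 y : ℤ) = 6 := by decide +kernel
theorem sum_D3 : ∑ y : Fin 8, (D3 y : ℤ) = 8 := by decide +kernel

theorem gon1 : G.gon 1 = 5 := by
  have hmem : 5 ∈ {d : ℕ | ∃ D : Fin 8 → ℤ, ∑ v, D v = d ∧ G.RankAtLeast D 1} := by
    refine ⟨(fun y : Fin 8 => (D2 y : ℤ)) - Pi.single 0 1, ?_,
      rank_sub G (r := 1) (s := 1) ?_ (by simp) rank2⟩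
    · simp only [Pi.sub_apply, sum_sub_distrib, sum_D2]
      simp
    · intro v
      by_cases hv : v = 0
      · subst hv
        simp
      · simp [hv]
  refine le_antisymm (Nat.sInf_le hmem) ?_
  by_contra hcon
  obtain ⟨D, hD, hr⟩ := Nat.sInf_mem ⟨5, hmem⟩
  exact no_rank1 D _ hD (by rw [MGraph.gon] at hcon; omega) hr

theorem gon2 : G.gon 2 = 6 := by
  have hmem : 6 ∈ {d : ℕ | ∃ D : Fin 8 → ℤ, ∑ v, D v = d ∧ G.RankAtLeast D 2} :=
    ⟨_, sum_D2, rank2⟩
  refine le_antisymm (Nat.sInf_le hmem) ?_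
  by_contra hcon
  obtain ⟨D, hD, hr⟩ := Nat.sInf_mem ⟨6, hmem⟩
  exact no_rank2 D _ hD (by rw [MGraph.gon] at hcon; omega) hr

theorem gon3 : G.gon 3 ≤ 8 := Nat.sInf_le ⟨_, sum_D3, rank3⟩

/-- Q1 and Q2 both fail: there is a gonality-tight graph with `gon_1 = 5`, `gon_2 = 6`, genus `8`
(not `10`) and `gon_3 ≤ 8` (not `10`). -/
theorem result : ∃ G : MGraph 8, G.Tight ∧ G.gon 1 = 5 ∧ G.gon 2 = 6 ∧ G.genus = 8 ∧
    G.gon 3 ≤ 8 ∧ ¬ G.GenusFormula ∧ ¬ G.SequenceFormula := by
  have ht : G.Tight := by rw [MGraph.Tight, gon1, gon2]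
  refine ⟨G, ht, gon1, gon2, genus_G, gon3, fun h1 => ?_, fun h => ?_⟩
  · rw [MGraph.GenusFormula, genus_G, gon1] at h1
    norm_num [Nat.choose] at h1
  · have h1 := h.2 3 2 2 (by norm_num) (by rw [gon1]; decide) (by norm_num)
      (by rw [gon1]; norm_num) le_rfl (by norm_num)
    rw [gon1] at h1
    have h2 := gon3
    have h3 : (G.gon 3 : ℤ) ≤ 8 := by exact_mod_cast h2
    rw [h1] at h3
    norm_num at h3

end Pool.Agent.Results.MP_d208ff_co.GonalityTight
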